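import Pool.Agent.MP_6f70ff_gt.Mg.H42

set_option autoImplicit false

namespace Pool.Agent.Results.MP_6f70ff_gt.Classification
open Pool.Agent.MP_6f70ff_gt

theorem result : ∀ (V : Type) (G : SimpleGraph V),
    Infinite V → G.Connected → (∀ v, (G.neighborSet v).Finite) →
    (∀ u v, ∃ φ : G ≃g G, φ u = v) →
    (SubScaleInvariant G ↔
      ∃ f : V → ℤ, ∀ x y, |(|f x - f y|) - (G.dist x y : ℤ)| ≤ 1) := by
  intro V G _ hc hf ht
  exact H42.classification hc hf ht

end Pool.Agent.Results.MP_6f70ff_gt.Classification
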