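import Pool.Agent.MP_6f70ff_gt.Proof

set_option autoImplicit false

namespace Pool.Agent.Results.MP_6f70ff_gt.Line
open Pool.Agent.MP_6f70ff_gt

theorem result : ∃ (V : Type) (G : SimpleGraph V),
    (∃ e : V ≃ ℤ, ∀ a b, G.Adj a b ↔ (e b = e a + 1 ∨ e a = e b + 1)) ∧
    Infinite V ∧ G.Connected ∧ (∀ v, (G.neighborSet v).Finite) ∧
    (∀ u v, ∃ φ : G ≃g G, φ u = v) ∧
    (∀ k, 1 ≤ k → ∃ N, IsNet G k N) ∧
    (∀ k, 1 ≤ k → ∀ N, IsNet G k N → (netGraph G k N).Connected) ∧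
    SubScaleInvariant G := by
  refine ⟨ℤ, line, ⟨Equiv.refl ℤ, fun _ _ => Iff.rfl⟩, inferInstance, ⟨fun a b => (line_geo a b).1⟩, fun v => ?_, fun u v => ?_,
    fun k hk => exists_net hk, fun k hk N hN => net_connected hk hN, fun N hN => ?_⟩
  · refine (Set.toFinite {v + 1, v - 1}).subset ?_
    rintro w (h | h)
    · left; exact h
    · right; simp; omega
  · refine ⟨⟨Equiv.addRight (v - u), fun {a b} => ?_⟩, by simp⟩
    change (b + (v - u) = a + (v - u) + 1 ∨ a + (v - u) = b + (v - u) + 1) ↔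
      (b = a + 1 ∨ a = b + 1)
    omega
  · refine tendsto_const_nhds.congr' ?_
    filter_upwards [Filter.eventually_ge_atTop 1] with k hk
    exact (roughConst_eq_one hk (hN k hk)).symm

end Pool.Agent.Results.MP_6f70ff_gt.Line
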